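import Mathlib

set_option autoImplicit false

/-!
Pure group theory for the products of inversions (MP_52f71e_al, step (2), (3)).
-/

namespace Pool.Agent.H37.SL

theorem odd_pow_inv {M : Type*} [Group M] {D : M} (hD : D * D = 1) {n : ℕ} (hn : Odd n) :
    D ^ n = D := by
  obtain ⟨k, rfl⟩ := hn
  rw [pow_succ, pow_mul, pow_two, hD, one_pow, one_mul]

theorem conj_pow_inv {M : Type*} [Group M] {D w : M} (hD : D * D = 1) (n : ℕ) :
    (D * w * D) ^ n = D * w ^ n * D := by
  have h1 : D⁻¹ = D := inv_eq_of_mul_eq_one_left hD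
  have h2 := conj_pow (i := n) (a := D) (b := w)
  rw [h1] at h2
  exact h2

theorem com_conj {M : Type*} [Group M] {D a b : M} (hD : D * D = 1) (h : Commute a b) :
    Commute (D * a * D) (D * b * D) := by
  have h1 : a * b = b * a := h
  show D * a * D * (D * b * D) = D * b * D * (D * a * D)
  calc D * a * D * (D * b * D) = D * a * (D * D) * b * D := by group
    _ = D * (a * b) * D := by rw [hD]; group
    _ = D * (b * a) * D := by rw [h1]
    _ = D * b * (D * D) * a * D := by rw [hD]; group
    _ = D * b * D * (D * a * D) := by group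

theorem two_D {M : Type*} [Group M] {w D E : M} {n : ℕ} (hn : Odd n) (hw : w ^ n = 1)
    (hD : D * D = 1) (hE : E * E = 1) (h1 : Commute w (D * w * D)) (h2 : Commute w (E * w * E))
    (h3 : w * E * w⁻¹ * D = D * w⁻¹ * E * w) (h4 : (w * E * w⁻¹ * D) ^ n = 1) : E = D := by
  have hDi : D⁻¹ = D := inv_eq_of_mul_eq_one_left hD
  have hEi : E⁻¹ = E := inv_eq_of_mul_eq_one_left hE
  obtain ⟨u, hu⟩ : ∃ u, u = D * w * D := ⟨_, rfl⟩
  obtain ⟨x, hx⟩ : ∃ x, x = E * w * E := ⟨_, rfl⟩
  rw [← hu] at h1
  rw [← hx] at h2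
  have hun : u ^ n = 1 := by rw [hu, conj_pow_inv hD, hw, mul_one, hD]
  have hxn : x ^ n = 1 := by rw [hx, conj_pow_inv hE, hw, mul_one, hE]
  -- `E` commutes with `w D w`
  have c1 : Commute E (w * D * w) := by
    show E * (w * D * w) = w * D * w * E
    calc E * (w * D * w) = w * (D * (D * w⁻¹ * E * w)) * D * w := by
          rw [show w * (D * (D * w⁻¹ * E * w)) * D * w = w * (D * D) * w⁻¹ * E * w * D * w by group,
            hD]
          group
      _ = w * (D * (w * E * w⁻¹ * D)) * D * w := by rw [h3]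
      _ = w * D * w * E * w⁻¹ * (D * D) * w := by group
      _ = w * D * w * E := by rw [hD]; group
  have huD : u * D = D * w := by
    rw [hu, mul_assoc, hD, mul_one]
  have hDu : D * u = w * D := by
    rw [hu, ← mul_assoc, ← mul_assoc, hD, one_mul]
  have c2 : Commute (w * u) D := by
    show w * u * D = D * (w * u)
    calc w * u * D = w * (u * D) := by group
      _ = w * D * w := by rw [huD]; group
      _ = D * u * w := by rw [hDu]
      _ = D * (w * u) := by rw [mul_assoc, h1.eq]
  have han : (w * u) ^ n = 1 := by rw [h1.mul_pow, hw, hun, mul_one]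
  have c3 : w * D * w = w * u * D := by rw [mul_assoc w u D, huD]; group
  have c4 : (w * D * w) ^ n = D := by
    rw [c3, c2.mul_pow, han, one_mul, odd_pow_inv hD hn]
  have c5 : Commute E D := by
    have := c1.pow_right n
    rwa [c4] at this
  have c6 : Commute E (w * u) := by
    have h5 : w * u = w * D * w * D := by rw [c3, mul_assoc, hD, mul_one]
    rw [h5]
    exact c1.mul_right c5
  obtain ⟨t, ht⟩ : ∃ t, t = E * D := ⟨_, rfl⟩
  have ht' : t = D * E := by rw [ht, c5.eq]
  have htt : t * t = 1 := by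
    calc t * t = (D * E) * (E * D) := by rw [← ht', ← ht]
      _ = D * (E * E) * D := by group
      _ = 1 := by rw [hE, mul_one, hD]
  have htD : t * D = E := by rw [ht, mul_assoc, hD, mul_one]
  have hDt : D * t = E := by rw [ht', ← mul_assoc, hD, one_mul]
  obtain ⟨y, hy⟩ : ∃ y, y = t * w * t := ⟨_, rfl⟩
  have hyn : y ^ n = 1 := by rw [hy, conj_pow_inv htt, hw, mul_one, htt]
  have hDy : D * y * D = x := by
    rw [hy, hx]
    calc D * (t * w * t) * D = (D * t) * w * (t * D) := by group
      _ = E * w * E := by rw [hDt, htD]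
  have htu : t * u * t = x := by
    rw [hu, hx]
    calc t * (D * w * D) * t = (t * D) * w * (D * t) := by group
      _ = E * w * E := by rw [hDt, htD]
  have hDx : D * x * D = y := by
    rw [← hDy]
    calc D * (D * y * D) * D = (D * D) * y * (D * D) := by group
      _ = y := by rw [hD]; group
  have hDw : D * w * D = u := hu.symm
  have hDuD : D * u * D = w := by rw [hDu, mul_assoc, hD, mul_one]
  -- `w` commutes with `y`
  have c7 : x * y = w * u := by
    have h5 : E * (w * u) * E = w * u := by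
      rw [c6.eq, mul_assoc, hE, mul_one]
    calc x * y = E * w * E * (t * w * t) := by rw [hx, hy]
      _ = E * w * (E * (E * D)) * w * (D * E) := by
          conv_lhs => rw [mul_assoc t w t, ← mul_assoc (E * w * E)]
          rw [show E * w * E * t * (w * t) = E * w * (E * t) * w * t by group]
          rw [← ht, ← ht']
      _ = E * w * (E * E) * D * w * D * E := by group
      _ = E * w * (D * w * D) * E := by rw [hE]; group
      _ = E * (w * u) * E := by rw [hDw]; group
      _ = w * u := h5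
  have cwy : Commute w y := by
    have h5 : y = x⁻¹ * (w * u) := by rw [← c7]; group
    rw [h5]
    exact (h2.inv_right).mul_right ((Commute.refl w).mul_right h1)
  have cuy : Commute u y := by
    have := com_conj hD h2
    rwa [hDw, hDx] at this
  have cux : Commute u x := by
    have := com_conj hD cwy
    rwa [hDw, hDy] at this
  have cyx : Commute y x := by
    have := com_conj htt h1
    rwa [← hy, htu] at this
  -- `w t u⁻¹`
  obtain ⟨r, hr⟩ : ∃ r, r = y * u⁻¹ := ⟨_, rfl⟩
  have hty : t * y * t = w := by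
    rw [hy]
    calc t * (t * w * t) * t = (t * t) * w * (t * t) := by group
      _ = w := by rw [htt]; group
  have htr : t * r * t = w * x⁻¹ := by
    have hti : t⁻¹ = t := inv_eq_of_mul_eq_one_left htt
    have h5 : t * u⁻¹ * t = x⁻¹ := by
      rw [← htu]
      rw [mul_inv_rev, mul_inv_rev, hti]
      group
    rw [hr, ← hty, ← h5]
    calc t * (y * u⁻¹) * t = t * y * (1) * u⁻¹ * t := by group
      _ = t * y * (t * t) * u⁻¹ * t := by rw [htt]
      _ = t * y * t * (t * u⁻¹ * t) := by group
  have h5 : w * E * w⁻¹ * D = t * r := by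
    have h6 : D * w⁻¹ * D = u⁻¹ := by
      rw [hu, mul_inv_rev, mul_inv_rev, hDi]
      group
    calc w * E * w⁻¹ * D = w * (t * D) * w⁻¹ * D := by rw [htD]
      _ = w * t * (D * w⁻¹ * D) := by group
      _ = (t * t) * w * t * u⁻¹ := by rw [h6, htt, one_mul]
      _ = t * (t * w * t * u⁻¹) := by group
      _ = t * r := by rw [hr, hy]
  rw [h5] at h4
  have crx : Commute r (w * x⁻¹) := by
    rw [hr]
    exact ((cwy.symm).mul_left (h1.symm.inv_left)).mul_right
      (((cyx).mul_left (cux.inv_left)).inv_right)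
  have hrn : r ^ n = 1 := by
    rw [hr, (cuy.symm.inv_right).mul_pow, hyn, inv_pow, hun, inv_one, mul_one]
  have hr'n : (w * x⁻¹) ^ n = 1 := by
    rw [(h2.inv_right).mul_pow, hw, inv_pow, hxn, inv_one, mul_one]
  have hsq : (t * r) ^ 2 = w * x⁻¹ * r := by
    rw [pow_two, ← htr]; group
  obtain ⟨m, hm⟩ := hn
  have h6 : (w * x⁻¹ * r) ^ m * (t * r) = 1 := by
    rw [← hsq, ← pow_mul, ← pow_succ, ← hm]; exact h4
  have h7 : t = ((w * x⁻¹ * r) ^ m)⁻¹ * r⁻¹ := by
    calc t = ((w * x⁻¹ * r) ^ m)⁻¹ * ((w * x⁻¹ * r) ^ m * (t * r)) * r⁻¹ := by group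
      _ = _ := by rw [h6, mul_one]
  have h8 : t ^ n = 1 := by
    have ca : Commute ((w * x⁻¹ * r) ^ m)⁻¹ r⁻¹ :=
      (((crx.symm.mul_left (Commute.refl r)).pow_left m).inv_left).inv_right
    rw [h7, ca.mul_pow, inv_pow, inv_pow, hrn, inv_one, mul_one, ← pow_mul, mul_comm m n, pow_mul,
      crx.symm.mul_pow, hr'n, hrn, mul_one, one_pow, inv_one]
  have h9 : t = 1 := by
    rw [← h8]
    exact (odd_pow_inv htt ⟨m, hm⟩).symm
  calc E = t * D := htD.symm
    _ = D := by rw [h9, one_mul]

theorem alg_three' {M : Type*} [Group M] {w D D' : M} (hD : D * D = 1) (hD' : D' * D' = 1)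
    {n : ℕ} (hn : Odd n) (hw : w ^ n = 1) (h1 : w * (D * w * D) = (D * w * D) * w)
    (h2 : w * (D' * w * D') = (D' * w * D') * w)
    (h3 : D * w * D' * w⁻¹ = w⁻¹ * D' * w * D) {m : ℕ} (hm : Odd m)
    (h4 : (w * D' * w⁻¹ * D) ^ m = 1) : D' = D := by
  refine two_D (hn.mul hm) (w := w) ?_ hD hD' h1 h2 ?_ ?_
  · rw [pow_mul, hw, one_pow]
  · calc w * D' * w⁻¹ * D = (D * D) * w * D' * w⁻¹ * D := by rw [hD, one_mul]
      _ = D * (D * w * D' * w⁻¹) * D := by group
      _ = D * (w⁻¹ * D' * w * D) * D := by rw [h3]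
      _ = D * w⁻¹ * D' * w * (D * D) := by group
      _ = D * w⁻¹ * D' * w := by rw [hD, mul_one]
  · rw [mul_comm n m, pow_mul, h4, one_pow]

end Pool.Agent.H37.SL
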