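import Pool.Agent.H98.FT.Def
import Pool.Agent.H37.SL.G1

set_option autoImplicit false

/-!
MP_52f71e_al: note 6641 (0)-(4) of helper98.
-/

namespace Pool.Agent.H37.SL

open Equiv ALoop

variable {Q : Type*} {G : Subgroup (Perm Q)} {L : Q → Perm Q} {J : Perm Q} {e : Q}

/-- `D_x` and the conjugation by `L_x` -/
theorem pr_J (h : AL G L J e) {x : Q} (hJx : J x = x) : (L x)⁻¹ * J * L x = D L J x := by
  have h1 := h.D_conj (G.inv_mem (h.memL x)) e
  rw [h.D_e, inv_inv] at h1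
  rw [h1]
  congr 1
  rw [Perm.inv_eq_iff_eq]; exact (h.LxLx hJx).symm

theorem z_e (h : AL G L J e) {x : Q} (hx : Iv J e x) : zz L J x e = e := h.zx_e hx.1 hx.2

theorem z_x (h : AL G L J e) {x : Q} (hx : Iv J e x) : zz L J x x = x := h.zx_x hx.1 hx.2

theorem z_mem (h : AL G L J e) {x : Q} (hx : Iv J e x) : zz L J x ∈ Inn G e :=
  ⟨h.Z_mem (h.zx_mem hx.1 hx.2), h.zx_e hx.1 hx.2⟩

theorem z_sq (h : AL G L J e) {x : Q} (hx : Iv J e x) : zz L J x * zz L J x = 1 :=
  h.Z_sq (h.zx_mem hx.1 hx.2)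

theorem rt_x (h : AL G L J e) {x : Q} (hx : Iv J e x) : rt L J x = zz L J x * L x := by
  unfold rt zz
  rw [hx.1]
  exact h.zt_eq hx.1

theorem rt_apply (h : AL G L J e) (x y : Q) : rt L J y x = L x y := h.R_apply x y

theorem rt_mem (h : AL G L J e) (y : Q) : rt L J y ∈ G := h.memR y

/-- facts on `c` and `c'` -/
structure CF (G : Subgroup (Perm Q)) (L : Q → Perm Q) (J : Perm Q) (e : Q) (x : Q)
    (c c' a d : Perm Q) : Prop where
  ha : a = L x
  hd : d = D L J x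
  hc' : a * c' = c * a
  dd : d * d = 1
  JJ : J * J = 1
  dJ : d * J = J * d
  cJ : c * J = J * c
  dc : d * c = c⁻¹ * d
  c'd : c' * d = d * c'
  Jc' : J * c' = c'⁻¹ * J
  cc' : c' * c = c * c'
  memc : c ∈ G
  memc' : c' ∈ G
  ce : c e = e
  de : d e = e

theorem cf (h : AL G L J e) {x : Q} {c : Perm Q} (o : KX G L J e x c) :
    CF G L J e x c (pr L x c) (L x) (D L J x) := by
  obtain ⟨n, hn, hcn⟩ := o.odd
  obtain ⟨k1, k2, k3⟩ := h.key_comm o.Iv.1 o.mem hn hcn o.inv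
  have hdd := h.D_sq x
  have hJJ := h.JJ1
  refine ⟨rfl, rfl, ?_, hdd, hJJ, h.Dx_J o.Iv.1, h.comJ c o.mem.1 o.mem.2, ?_, k1, ?_, k3,
    o.mem.1, ?_, o.mem.2, ?_⟩
  · unfold pr; group
  · calc D L J x * c = D L J x * c * (D L J x * D L J x) := by rw [hdd, mul_one]
      _ = (D L J x * c * D L J x) * D L J x := by group
      _ = c⁻¹ * D L J x := by rw [o.inv]
  · calc J * pr L x c = J * pr L x c * (J * J) := by rw [hJJ, mul_one]
      _ = (J * pr L x c * J) * J := by group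
      _ = (pr L x c)⁻¹ * J := by
          have : J * pr L x c * J = (pr L x c)⁻¹ := k2
          rw [this]
  · exact G.mul_mem (G.mul_mem (G.inv_mem (h.memL x)) o.mem.1) (h.memL x)
  · have h1 := h.zx_e o.Iv.1 o.Iv.2
    have h2 : (D L J x * J) e = D L J x (J e) := rfl
    rw [h2, h.Je] at h1
    exact h1

theorem KX_inv (h : AL G L J e) {x : Q} {c : Perm Q} (o : KX G L J e x c) :
    KX G L J e x c⁻¹ := by
  obtain ⟨n, hn, hcn⟩ := o.odd
  refine ⟨o.Iv, (Inn G e).inv_mem o.mem, ⟨n, hn, by rw [inv_pow, hcn, inv_one]⟩, ?_⟩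
  have hdi : (D L J x)⁻¹ = D L J x := inv_eq_of_mul_eq_one_left (h.D_sq x)
  have h1 : D L J x * c⁻¹ * D L J x = (D L J x * c * D L J x)⁻¹ := by
    rw [mul_inv_rev, mul_inv_rev, hdi]; group
  rw [h1, o.inv]

theorem KX_sq (h : AL G L J e) {x : Q} {c : Perm Q} (o : KX G L J e x c) :
    KX G L J e x (c * c) := by
  obtain ⟨n, hn, hcn⟩ := o.odd
  refine ⟨o.Iv, (Inn G e).mul_mem o.mem o.mem, ⟨n, hn, ?_⟩, ?_⟩
  · rw [(Commute.refl c).mul_pow, hcn, one_mul]
  · have hdd := h.D_sq x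
    calc D L J x * (c * c) * D L J x = D L J x * c * 1 * c * D L J x := by group
      _ = D L J x * c * (D L J x * D L J x) * c * D L J x := by rw [hdd]
      _ = (D L J x * c * D L J x) * (D L J x * c * D L J x) := by group
      _ = (c * c)⁻¹ := by rw [o.inv]; group

theorem pr_inv (x : Q) (c : Perm Q) : pr L x c⁻¹ = (pr L x c)⁻¹ := by unfold pr; group

theorem pr_mul (x : Q) (c b : Perm Q) : pr L x (c * b) = pr L x c * pr L x b := by
  unfold pr; group

theorem pr_pow (x : Q) (c : Perm Q) (n : ℕ) : (pr L x c) ^ n = pr L x (c ^ n) := by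
  unfold pr
  have h2 := conj_pow (i := n) (a := (L x)⁻¹) (b := c)
  rw [inv_inv] at h2
  exact h2

/-- the point `u = c x` -/
theorem cx_facts (h : AL G L J e) {x : Q} {c : Perm Q} (o : KX G L J e x c) :
    Iv J e (c x) ∧ D L J (c x) = c * c * D L J x ∧ L (c x) = L x * (pr L x c * c⁻¹) ∧
    rt L J (c x) = rt L J x * (pr L x c * c)⁻¹ := by
  have f := cf h o
  have hJu : J (c x) = c x := by
    have h1 : (c * J) x = (J * c) x := by rw [f.cJ]
    have h2 : c (J x) = J (c x) := h1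
    rw [o.Iv.1] at h2
    exact h2.symm
  have hu : Iv J e (c x) := by
    refine ⟨hJu, fun h1 => o.Iv.2 ?_⟩
    apply c.injective
    rw [h1, f.ce]
  have hL : L (c x) = c * L x * c⁻¹ := (h.equi c f.memc f.ce x).symm
  refine ⟨hu, ?_, ?_, ?_⟩
  · rw [← h.D_conj f.memc]
    have h1 : D L J x * c⁻¹ = c * D L J x := by
      calc D L J x * c⁻¹ = c * (c⁻¹ * D L J x) * c⁻¹ := by group
        _ = c * (D L J x * c) * c⁻¹ := by rw [f.dc]
        _ = c * D L J x := by group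
    rw [mul_assoc, h1]; group
  · rw [hL]; unfold pr; group
  · have hz : zz L J x * c⁻¹ = c * zz L J x := by
      unfold zz
      calc D L J x * J * c⁻¹ = D L J x * c⁻¹ * (c * J) * c⁻¹ := by group
        _ = D L J x * c⁻¹ * (J * c) * c⁻¹ := by rw [f.cJ]
        _ = c * (c⁻¹ * D L J x) * c⁻¹ * J := by group
        _ = c * (D L J x * c) * c⁻¹ * J := by rw [f.dc]
        _ = c * (D L J x * J) := by group
    have h1 : rt L J (c x) = c * (zz L J x * L x) * c⁻¹ := by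
      have h2 : rt L J (c x) = J * (c * L x * c⁻¹) * J := by
        unfold rt; rw [hJu, hL]
      have h3 : J * L x * J = zz L J x * L x := h.zt_eq o.Iv.1
      rw [h2, ← h3]
      calc J * (c * L x * c⁻¹) * J = (J * c) * L x * c⁻¹ * J := by group
        _ = (c * J) * L x * c⁻¹ * J := by rw [f.cJ]
        _ = c * J * L x * (c⁻¹ * (J * c) * c⁻¹) := by group
        _ = c * J * L x * (c⁻¹ * (c * J) * c⁻¹) := by rw [f.cJ]
        _ = c * (J * L x * J) * c⁻¹ := by group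
    rw [h1, rt_x h o.Iv]
    have h4 : pr L x c = (L x)⁻¹ * c * L x := rfl
    calc c * (zz L J x * L x) * c⁻¹ = (c * zz L J x) * L x * c⁻¹ := by group
      _ = (zz L J x * c⁻¹) * L x * c⁻¹ := by rw [hz]
      _ = zz L J x * L x * ((L x)⁻¹ * c⁻¹ * L x) * c⁻¹ := by group
      _ = zz L J x * L x * (pr L x c * c)⁻¹ := by
          rw [f.cc', h4]; group

/-- the point `s` -/
theorem sp_facts (h : AL G L J e) {x : Q} {c : Perm Q} (o : KX G L J e x c) :
    D L J (sp L x c) = pr L x c * pr L x c * J ∧ c (sp L x c) = sp L x c ∧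
    zz L J x (sp L x c) = J (sp L x c) ∧ L x (sp L x c) = c x ∧
    L (sp L x c) x = c⁻¹ x ∧ L (sp L x c) (c x) = x ∧ sp L x c = pr L x c e := by
  have f := cf h o
  have hs : sp L x c = pr L x c e := by
    show (L x)⁻¹ (c x) = (L x)⁻¹ (c (L x e))
    rw [h.Le]
  have hcs : c (sp L x c) = sp L x c := by
    rw [hs]
    show (c * pr L x c) e = pr L x c e
    rw [← f.cc']
    show pr L x c (c e) = _
    rw [f.ce]
  have hLs : L x (sp L x c) = c x := apply_inv' _ _
  have hzx := z_x h o.Iv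
  have hzc : ∀ q, zz L J x (c q) = c⁻¹ (zz L J x q) := by
    intro q
    have h1 : zz L J x * c = c⁻¹ * zz L J x := by
      unfold zz
      calc D L J x * J * c = D L J x * (J * c) := by group
        _ = D L J x * (c * J) := by rw [f.cJ]
        _ = (D L J x * c) * J := by group
        _ = c⁻¹ * (D L J x * J) := by rw [f.dc]; group
    have h2 : (zz L J x * c) q = (c⁻¹ * zz L J x) q := by rw [h1]
    exact h2
  refine ⟨?_, hcs, ?_, hLs, ?_, ?_, hs⟩
  · have h1 := h.D_conj f.memc' e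
    rw [h.D_e, ← hs] at h1
    rw [← h1]
    have h2 : J * (pr L x c)⁻¹ = pr L x c * J := by
      calc J * (pr L x c)⁻¹ = pr L x c * ((pr L x c)⁻¹ * J) * (pr L x c)⁻¹ := by group
        _ = pr L x c * (J * pr L x c) * (pr L x c)⁻¹ := by rw [f.Jc']
        _ = pr L x c * J := by group
    rw [mul_assoc, h2]; group
  · rw [hs]
    show (zz L J x * pr L x c) e = (J * pr L x c) e
    have h1 : zz L J x * pr L x c = (pr L x c)⁻¹ * zz L J x := by
      unfold zz
      calc D L J x * J * pr L x c = D L J x * (J * pr L x c) := by group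
        _ = D L J x * ((pr L x c)⁻¹ * J) := by rw [f.Jc']
        _ = (pr L x c)⁻¹ * (pr L x c * D L J x) * (pr L x c)⁻¹ * J := by group
        _ = (pr L x c)⁻¹ * (D L J x * pr L x c) * (pr L x c)⁻¹ * J := by rw [f.c'd]
        _ = (pr L x c)⁻¹ * (D L J x * J) := by group
    rw [h1, f.Jc']
    show (pr L x c)⁻¹ (zz L J x e) = (pr L x c)⁻¹ (J e)
    rw [z_e h o.Iv, h.Je]
  · rw [← rt_apply h, rt_x h o.Iv]
    show zz L J x (L x (sp L x c)) = _
    rw [hLs, hzc, hzx]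
  · have hcs' : c⁻¹ (sp L x c) = sp L x c := by rw [Perm.inv_eq_iff_eq]; exact hcs.symm
    obtain ⟨-, -, -, h5⟩ := cx_facts h o
    have h6 : rt L J (c x) = c * (zz L J x * L x) * c⁻¹ := by
      have hz : zz L J x * c⁻¹ = c * zz L J x := by
        ext q
        have := hzc (c⁻¹ q)
        rw [apply_inv'] at this
        show zz L J x (c⁻¹ q) = c (zz L J x q)
        rw [this, apply_inv']
      rw [h5, rt_x h o.Iv, f.cc']
      have h4 : pr L x c = (L x)⁻¹ * c * L x := rfl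
      calc zz L J x * L x * (c * pr L x c)⁻¹ = (zz L J x * c⁻¹) * L x * c⁻¹ := by rw [h4]; group
        _ = (c * zz L J x) * L x * c⁻¹ := by rw [hz]
        _ = _ := by group
    rw [← rt_apply h, h6]
    show c (zz L J x (L x (c⁻¹ (sp L x c)))) = x
    rw [hcs', hLs, hzc, apply_inv', hzx]

/-- (0) -/
theorem zero (h : AL G L J e) {x : Q} {c : Perm Q} (o : KX G L J e x c) :
    ∃ k : Perm Q, k ∈ Inn G e ∧ k x = x ∧ k (sp L x c) = sp L x c ∧
    k * c = c * k ∧ k * pr L x c = pr L x c * k ∧ k * D L J x = D L J x * k ∧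
    L (sp L x c) = pr L x c * c⁻¹ * k ∧ rt L J (sp L x c) = pr L x c * c * k := by
  have f := cf h o
  obtain ⟨hu, hDu, hLu, -⟩ := cx_facts h o
  obtain ⟨hDs, hcs, hzs, hLs, hsx, hsu, hs⟩ := sp_facts h o
  have hLu' : L (c x) = c * L x * c⁻¹ := (h.equi c f.memc f.ce x).symm
  obtain ⟨k, hk⟩ : ∃ k, k = (L (c x))⁻¹ * L x * L (sp L x c) := ⟨_, rfl⟩
  have hkG : k ∈ G := by
    rw [hk]; exact G.mul_mem (G.mul_mem (G.inv_mem (h.memL _)) (h.memL _)) (h.memL _)
  have hap : ∀ q, k q = (L (c x))⁻¹ (L x (L (sp L x c) q)) := by intro q; rw [hk]; rfl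
  have hke : k e = e := by
    rw [hap, h.Le, hLs, Perm.inv_eq_iff_eq, h.Le]
  have hkx : k x = x := by
    rw [hap, hsx, Perm.inv_eq_iff_eq, hLu']
    show L x (c⁻¹ x) = c (L x (c⁻¹ x))
    have h1 : L x (c⁻¹ x) = (L x * c⁻¹ * (L x)⁻¹) e := by
      have h2 : (L x)⁻¹ e = x := by rw [Perm.inv_eq_iff_eq]; exact (h.LxLx o.Iv.1).symm
      show _ = L x (c⁻¹ ((L x)⁻¹ e))
      rw [h2]
    have h3 : c * (L x * c⁻¹ * (L x)⁻¹) = (L x * c⁻¹ * (L x)⁻¹) * c := by
      have h4 : pr L x c * c⁻¹ = c⁻¹ * pr L x c := by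
        calc pr L x c * c⁻¹ = c⁻¹ * (c * pr L x c) * c⁻¹ := by group
          _ = c⁻¹ * (pr L x c * c) * c⁻¹ := by rw [f.cc']
          _ = _ := by group
      have h5 : pr L x c = (L x)⁻¹ * c * L x := rfl
      calc c * (L x * c⁻¹ * (L x)⁻¹) = L x * (((L x)⁻¹ * c * L x) * c⁻¹) * (L x)⁻¹ := by group
        _ = L x * (pr L x c * c⁻¹) * (L x)⁻¹ := by rw [h5]
        _ = L x * (c⁻¹ * pr L x c) * (L x)⁻¹ := by rw [h4]
        _ = _ := by rw [h5]; group
    rw [h1]
    show _ = (c * (L x * c⁻¹ * (L x)⁻¹)) e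
    rw [h3]
    show _ = (L x * c⁻¹ * (L x)⁻¹) (c e)
    rw [f.ce]
  have hku : k (c x) = c x := by
    rw [hap, hsu, Perm.inv_eq_iff_eq, h.LxLx o.Iv.1, h.LxLx hu.1]
  have hks : k (sp L x c) = sp L x c := by
    have h1 := h.aut hkG hke x (sp L x c)
    rw [hLs, hku, hkx, ← hLs] at h1
    exact ((L x).injective h1).symm
  have hkJ : k * J = J * k := h.comJ k hkG hke
  have hkD : k * D L J x = D L J x * k := (h.D_cent hkG x).2 hkx
  have hkDu : k * D L J (c x) = D L J (c x) * k := (h.D_cent hkG (c x)).2 hku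
  have hkc : k * c = c * k := by
    obtain ⟨n, hn, hcn⟩ := o.odd
    refine (comm_of_sq hn hcn ?_).symm
    rw [hDu] at hkDu
    have hdd := f.dd
    calc c * c * k = c * c * k * (D L J x * D L J x) := by rw [hdd, mul_one]
      _ = c * c * (k * D L J x) * D L J x := by group
      _ = (c * c * D L J x) * k * D L J x := by rw [hkD]; group
      _ = k * (c * c * D L J x) * D L J x := by rw [hkDu]
      _ = k * (c * c) * (D L J x * D L J x) := by group
      _ = k * (c * c) := by rw [hdd, mul_one]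
  have hkL : k * L x = L x * k := h.comL hkG hke hkx
  have hkc' : k * pr L x c = pr L x c * k := by
    have h5 : pr L x c = (L x)⁻¹ * c * L x := rfl
    have hkLi : k * (L x)⁻¹ = (L x)⁻¹ * k := by
      calc k * (L x)⁻¹ = (L x)⁻¹ * (L x * k) * (L x)⁻¹ := by group
        _ = (L x)⁻¹ * (k * L x) * (L x)⁻¹ := by rw [hkL]
        _ = _ := by group
    rw [h5]
    calc k * ((L x)⁻¹ * c * L x) = (k * (L x)⁻¹) * c * L x := by group
      _ = (L x)⁻¹ * (k * c) * L x := by rw [hkLi]; group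
      _ = (L x)⁻¹ * c * (k * L x) := by rw [hkc]; group
      _ = (L x)⁻¹ * c * L x * k := by rw [hkL]; group
  have hL : L (sp L x c) = pr L x c * c⁻¹ * k := by
    rw [hk, hLu]; group
  refine ⟨k, ⟨hkG, hke⟩, hkx, hks, hkc, hkc', hkD, hL, ?_⟩
  have hz := z_mem h o.Iv
  have h6 : L (J (sp L x c)) = zz L J x * L (sp L x c) * (zz L J x)⁻¹ := by
    rw [← hzs]; exact (h.equi _ hz.1 hz.2 _).symm
  have hzi : (zz L J x)⁻¹ = zz L J x := inv_eq_of_mul_eq_one_left (z_sq h o.Iv)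
  have h7 : J * zz L J x = D L J x := by
    unfold zz
    rw [f.dJ, ← mul_assoc, f.JJ, one_mul]
  have h8 : zz L J x * J = D L J x := by
    unfold zz
    rw [mul_assoc, f.JJ, mul_one]
  have h9 : D L J x * c⁻¹ * D L J x = c := by
    have h10 := f.dc
    have hdi : (D L J x)⁻¹ = D L J x := inv_eq_of_mul_eq_one_left f.dd
    calc D L J x * c⁻¹ * D L J x = D L J x * (c⁻¹ * D L J x) := by group
      _ = D L J x * (D L J x * c) := by rw [h10]
      _ = c := by rw [← mul_assoc, f.dd, one_mul]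
  unfold rt
  rw [h6, hzi]
  calc J * (zz L J x * L (sp L x c) * zz L J x) * J
      = (J * zz L J x) * L (sp L x c) * (zz L J x * J) := by group
    _ = D L J x * (pr L x c * c⁻¹ * k) * D L J x := by rw [h7, h8, hL]
    _ = (D L J x * pr L x c) * c⁻¹ * (k * D L J x) := by group
    _ = pr L x c * (D L J x * c⁻¹ * D L J x) * k := by rw [← f.c'd, hkD]; group
    _ = pr L x c * c * k := by rw [h9]

/-- (1), one exponent -/
theorem one_form (h : AL G L J e) {x : Q} {c : Perm Q} (o : KX G L J e x c) (q : Q) :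
    L q * (c * c) * (L q)⁻¹ = rt L J x *
      ((pr L x c * c)⁻¹ * (D L J q * (pr L x c * c) * D L J q)) * (rt L J x)⁻¹ := by
  obtain ⟨hu, hDu, hLu, hRu⟩ := cx_facts h o
  have h1 := h.D_conj (h.memL q) (c x)
  have h2 := h.D_conj (h.memL q) x
  have h3 := h.D_conj (rt_mem h (c x)) q
  have h4 := h.D_conj (rt_mem h x) q
  rw [rt_apply h] at h3 h4
  rw [← h3, hRu, hDu] at h1
  rw [← h4] at h2
  have hdd := h.D_sq x
  have h5 : L q * (c * c) * (L q)⁻¹ =
      (L q * (c * c * D L J x) * (L q)⁻¹) * (L q * D L J x * (L q)⁻¹) := by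
    calc L q * (c * c) * (L q)⁻¹ = L q * (c * c) * (D L J x * D L J x) * (L q)⁻¹ := by
          rw [hdd, mul_one]
      _ = _ := by group
  rw [h5, h1, h2]; group

/-- (1) -/
theorem one (h : AL G L J e) {x : Q} {c : Perm Q} (o : KX G L J e x c) (q : Q) :
    Commute (pr L x c * c) (D L J q * (pr L x c * c) * D L J q) := by
  have f := cf h o
  have h1 := one_form h o q
  have h2 := one_form h (KX_sq h o) q
  have h3 : pr L x (c * c) * (c * c) = (pr L x c * c) * (pr L x c * c) := by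
    rw [pr_mul]
    calc pr L x c * pr L x c * (c * c) = pr L x c * (pr L x c * c) * c := by group
      _ = pr L x c * (c * pr L x c) * c := by rw [f.cc']
      _ = _ := by group
  rw [h3] at h2
  obtain ⟨w, hw⟩ : ∃ w, w = pr L x c * c := ⟨_, rfl⟩
  obtain ⟨E, hE⟩ : ∃ E, E = D L J q := ⟨_, rfl⟩
  obtain ⟨R, hR⟩ : ∃ R, R = rt L J x := ⟨_, rfl⟩
  have hEE : E * E = 1 := by rw [hE]; exact h.D_sq q
  rw [← hw, ← hE, ← hR] at h1 h2
  rw [← hw, ← hE]
  have h4 : L q * (c * c * (c * c)) * (L q)⁻¹ =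
      (L q * (c * c) * (L q)⁻¹) * (L q * (c * c) * (L q)⁻¹) := by group
  rw [h4, h1] at h2
  have h5 : w⁻¹ * (E * w * E) * (w⁻¹ * (E * w * E)) = (w * w)⁻¹ * (E * (w * w) * E) := by
    have h6 : R⁻¹ * (R * (w⁻¹ * (E * w * E)) * R⁻¹ * (R * (w⁻¹ * (E * w * E)) * R⁻¹)) * R =
        R⁻¹ * (R * ((w * w)⁻¹ * (E * (w * w) * E)) * R⁻¹) * R := by rw [h2]
    calc w⁻¹ * (E * w * E) * (w⁻¹ * (E * w * E)) =
          R⁻¹ * (R * (w⁻¹ * (E * w * E)) * R⁻¹ * (R * (w⁻¹ * (E * w * E)) * R⁻¹)) * R := by group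
      _ = R⁻¹ * (R * ((w * w)⁻¹ * (E * (w * w) * E)) * R⁻¹) * R := h6
      _ = _ := by group
  have h7 : E * (w * w) * E = (E * w * E) * (E * w * E) := by
    calc E * (w * w) * E = E * w * 1 * w * E := by group
      _ = E * w * (E * E) * w * E := by rw [hEE]
      _ = _ := by group
  rw [h7] at h5
  obtain ⟨u, hu⟩ : ∃ u, u = E * w * E := ⟨_, rfl⟩
  rw [← hu] at h5
  rw [← hu]
  have h8 : u * w⁻¹ = w⁻¹ * u := by
    calc u * w⁻¹ = w * (w⁻¹ * u * (w⁻¹ * u)) * u⁻¹ := by group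
      _ = w * ((w * w)⁻¹ * (u * u)) * u⁻¹ := by rw [h5]
      _ = w⁻¹ * u := by group
  show w * u = u * w
  calc w * u = w * (u * w⁻¹) * w := by group
    _ = w * (w⁻¹ * u) * w := by rw [h8]
    _ = u * w := by group

/-- (2), with the element of (0) -/
theorem two_form (h : AL G L J e) {x : Q} {c k : Perm Q} (o : KX G L J e x c)
    (hk : k ∈ G) (hR : rt L J (sp L x c) = pr L x c * c * k) (q : Q) :
    L q * (pr L x c * pr L x c) * (L q)⁻¹ =
      (pr L x c * c) * D L J (k q) * (pr L x c * c)⁻¹ * D L J q := by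
  obtain ⟨hDs, -⟩ := sp_facts h o
  have h1 := h.D_conj (h.memL q) (sp L x c)
  have h2 := h.D_conj (rt_mem h (sp L x c)) q
  have h3 := h.D_conj hk q
  rw [rt_apply h] at h2
  rw [← h2, hR, hDs] at h1
  rw [← h3]
  have h4 : D L J q = L q * J * (L q)⁻¹ := rfl
  have hJJ := h.JJ1
  calc L q * (pr L x c * pr L x c) * (L q)⁻¹
      = L q * (pr L x c * pr L x c) * (J * J) * (L q)⁻¹ := by rw [hJJ, mul_one]
    _ = (L q * (pr L x c * pr L x c * J) * (L q)⁻¹) * (L q * J * (L q)⁻¹) := by group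
    _ = (pr L x c * c * k * D L J q * (pr L x c * c * k)⁻¹) * D L J q := by rw [h1, ← h4]
    _ = _ := by group

/-- (3): `L_s = c' c^-1`, `R_s = c' c` -/
theorem k_one' (h : AL G L J e) {x : Q} {c : Perm Q} (o : KX G L J e x c) :
    L (sp L x c) = pr L x c * c⁻¹ ∧ rt L J (sp L x c) = pr L x c * c := by
  have f := cf h o
  obtain ⟨k, hk, hkx, hks, hkc, hkc', hkD, hL, hR⟩ := zero h o
  have o2 := KX_inv h o
  obtain ⟨k', hk', -, -, -, -, -, hL', hR'⟩ := zero h o2
  obtain ⟨hDs, hcs, hzs, hLs, hsx, hsu, hs⟩ := sp_facts h o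
  have hs2 : sp L x c⁻¹ = zz L J x (sp L x c) := by
    obtain ⟨-, -, -, -, -, -, hs'⟩ := sp_facts h o2
    rw [hs', hzs, hs, pr_inv]
    have h1 : (J * pr L x c) e = ((pr L x c)⁻¹ * J) e := by rw [f.Jc']
    have h2 : J (pr L x c e) = (pr L x c)⁻¹ (J e) := h1
    rw [h2, h.Je]
  have hz := z_mem h o.Iv
  have hzi : (zz L J x)⁻¹ = zz L J x := inv_eq_of_mul_eq_one_left (z_sq h o.Iv)
  have hkJ : k * J = J * k := h.comJ k hk.1 hk.2
  -- `k' = k`
  have hkk : k' = k := by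
    have h1 : L (sp L x c⁻¹) = zz L J x * L (sp L x c) * (zz L J x)⁻¹ := by
      rw [hs2]; exact (h.equi _ hz.1 hz.2 _).symm
    have hzc' : zz L J x * pr L x c = (pr L x c)⁻¹ * zz L J x := by
      unfold zz
      calc D L J x * J * pr L x c = D L J x * (J * pr L x c) := by group
        _ = D L J x * ((pr L x c)⁻¹ * J) := by rw [f.Jc']
        _ = (pr L x c)⁻¹ * (pr L x c * D L J x) * (pr L x c)⁻¹ * J := by group
        _ = (pr L x c)⁻¹ * (D L J x * pr L x c) * (pr L x c)⁻¹ * J := by rw [f.c'd]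
        _ = (pr L x c)⁻¹ * (D L J x * J) := by group
    have hzc : zz L J x * c = c⁻¹ * zz L J x := by
      unfold zz
      calc D L J x * J * c = D L J x * (J * c) := by group
        _ = D L J x * (c * J) := by rw [f.cJ]
        _ = (D L J x * c) * J := by group
        _ = c⁻¹ * (D L J x * J) := by rw [f.dc]; group
    have hzci : zz L J x * c⁻¹ = c * zz L J x := by
      calc zz L J x * c⁻¹ = c * (c⁻¹ * zz L J x) * c⁻¹ := by group
        _ = c * (zz L J x * c) * c⁻¹ := by rw [hzc]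
        _ = _ := by group
    have hkz : k * zz L J x = zz L J x * k := by
      unfold zz
      calc k * (D L J x * J) = (k * D L J x) * J := by group
        _ = D L J x * (k * J) := by rw [hkD]; group
        _ = D L J x * J * k := by rw [hkJ]; group
    have h2 : L (sp L x c⁻¹) = (pr L x c)⁻¹ * c * k := by
      rw [h1, hL]
      calc zz L J x * (pr L x c * c⁻¹ * k) * (zz L J x)⁻¹
          = (zz L J x * pr L x c) * c⁻¹ * k * (zz L J x)⁻¹ := by group
        _ = (pr L x c)⁻¹ * (zz L J x * c⁻¹) * k * (zz L J x)⁻¹ := by rw [hzc']; group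
        _ = (pr L x c)⁻¹ * c * (zz L J x * k) * (zz L J x)⁻¹ := by rw [hzci]; group
        _ = (pr L x c)⁻¹ * c * k := by rw [← hkz]; group
    rw [h2, pr_inv, inv_inv] at hL'
    exact (mul_left_cancel hL').symm
  have hk1 : k = 1 := by
    ext q
    apply h.D_inj
    show D L J (k q) = D L J q
    obtain ⟨n, hn, hcn⟩ := o.odd
    have hw : (pr L x c * c) ^ n = 1 := by
      have h1 : Commute (pr L x c) c := f.cc'
      rw [h1.mul_pow, hcn, mul_one, pr_pow, hcn]
      unfold pr; group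
    have f1 := two_form h o hk.1 hR q
    rw [hkk] at hR'
    have f2 := two_form h o2 hk.1 hR' q
    have hw' : (pr L x c * c)⁻¹ = pr L x c⁻¹ * c⁻¹ := by
      rw [f.cc', pr_inv]; group
    rw [← hw', pr_inv, inv_inv] at f2
    have c1 := one h o q
    have c2 := one h o (k q)
    refine alg_three' (h.D_sq q) (h.D_sq (k q)) hn hw c1.eq c2.eq ?_ hn ?_
    · have hDi : ∀ p, (D L J p)⁻¹ = D L J p := fun p => inv_eq_of_mul_eq_one_left (h.D_sq p)
      have f3 : (L q * (pr L x c * pr L x c) * (L q)⁻¹)⁻¹ =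
          L q * ((pr L x c)⁻¹ * (pr L x c)⁻¹) * (L q)⁻¹ := by group
      rw [f1, f2] at f3
      have f4 : ((pr L x c * c) * D L J (k q) * (pr L x c * c)⁻¹ * D L J q)⁻¹ =
          (D L J q)⁻¹ * (pr L x c * c) * (D L J (k q))⁻¹ * (pr L x c * c)⁻¹ := by group
      rw [f4, hDi, hDi] at f3
      exact f3
    · rw [← f1, conj_pow, (Commute.refl (pr L x c)).mul_pow, pr_pow, hcn]
      unfold pr; group
  rw [hk1, mul_one] at hL hR
  exact ⟨hL, hR⟩

/-- (4) -/
theorem four (h : AL G L J e) {x : Q} {c : Perm Q} (o : KX G L J e x c) (q : Q) :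
    (L q)⁻¹ * (pr L x c * c) * L q * (pr L x c * c)⁻¹ ∈ Inn G e ∧
    ((L q)⁻¹ * (pr L x c * c) * L q * (pr L x c * c)⁻¹) (sp L x c) = sp L x c ∧
    ((L q)⁻¹ * (pr L x c * c) * L q * (pr L x c * c)⁻¹) * (pr L x c * c) =
      (pr L x c * c) * ((L q)⁻¹ * (pr L x c * c) * L q * (pr L x c * c)⁻¹) ∧
    ∃ n : ℕ, Odd n ∧ ((L q)⁻¹ * (pr L x c * c) * L q * (pr L x c * c)⁻¹) ^ n = 1 := by
  have f := cf h o
  obtain ⟨hL, hR⟩ := k_one' h o
  obtain ⟨hDs, -⟩ := sp_facts h o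
  have c1 := one h o q
  have f1 := two_form h o (k := 1) G.one_mem (by rw [hR, mul_one]) q
  obtain ⟨n, hn, hcn⟩ := o.odd
  have hw : (pr L x c * c) ^ n = 1 := by
    have h1 : Commute (pr L x c) c := f.cc'
    rw [h1.mul_pow, hcn, mul_one, pr_pow, hcn]
    unfold pr; group
  have hJJ := h.JJ1
  have hwG : pr L x c * c ∈ G := G.mul_mem f.memc' f.memc
  have hJw : J * (pr L x c * c) * J = (pr L x c)⁻¹ * c := by
    calc J * (pr L x c * c) * J = (J * pr L x c) * (c * J) := by group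
      _ = (pr L x c)⁻¹ * J * (J * c) := by rw [f.Jc', f.cJ]
      _ = (pr L x c)⁻¹ * (J * J) * c := by group
      _ = _ := by rw [hJJ, mul_one]
  obtain ⟨a, ha⟩ : ∃ a, a = pr L x c := ⟨_, rfl⟩
  have hac : a * c = c * a := by rw [ha]; exact f.cc'
  have haJ : J * a = a⁻¹ * J := by rw [ha]; exact f.Jc'
  rw [← ha] at c1 f1 hw hwG hJw hR hDs ⊢
  obtain ⟨w, hwd⟩ : ∃ w, w = a * c := ⟨_, rfl⟩
  obtain ⟨g, hg⟩ : ∃ g, g = (L q)⁻¹ * w * L q := ⟨_, rfl⟩
  rw [← hwd] at c1 f1 hw hwG hJw hR ⊢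
  rw [← hg]
  have hE : D L J q = L q * J * (L q)⁻¹ := rfl
  -- `g` commutes with `J g J`
  have c2 : g * (J * g * J) = (J * g * J) * g := by
    have h1 : w * (D L J q * w * D L J q) = (D L J q * w * D L J q) * w := c1
    rw [hE] at h1
    rw [hg]
    calc (L q)⁻¹ * w * L q * (J * ((L q)⁻¹ * w * L q) * J)
        = (L q)⁻¹ * (w * (L q * J * (L q)⁻¹ * w * (L q * J * (L q)⁻¹))) * L q := by group
      _ = (L q)⁻¹ * (L q * J * (L q)⁻¹ * w * (L q * J * (L q)⁻¹) * w) * L q := by rw [h1]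
      _ = _ := by group
  have hgn : g ^ n = 1 := by
    have h2 := conj_pow (i := n) (a := (L q)⁻¹) (b := w)
    rw [inv_inv] at h2
    rw [hg, h2, hw]; group
  -- `a a (J g J) = g`
  have c3 : a * a * (J * g * J) = g := by
    have h1 : L q * (a * a) * (L q)⁻¹ = w * (L q * J * (L q)⁻¹) * w⁻¹ * (L q * J * (L q)⁻¹) := f1
    have h2 : a * a = g * (J * g⁻¹ * J) := by
      rw [hg]
      calc a * a = (L q)⁻¹ * (L q * (a * a) * (L q)⁻¹) * L q := by group
        _ = (L q)⁻¹ * (w * (L q * J * (L q)⁻¹) * w⁻¹ * (L q * J * (L q)⁻¹)) * L q := by rw [h1]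
        _ = _ := by group
    rw [h2]
    calc g * (J * g⁻¹ * J) * (J * g * J) = g * J * g⁻¹ * (J * J) * g * J := by group
      _ = g * J * g⁻¹ * 1 * g * J := by rw [hJJ]
      _ = g * (J * J) := by group
      _ = g := by rw [hJJ, mul_one]
  have c4 : J * g * J = a⁻¹ * a⁻¹ * g := by
    calc J * g * J = a⁻¹ * a⁻¹ * (a * a * (J * g * J)) := by group
      _ = _ := by rw [c3]
  have c5 : g * (a * a) = a * a * g := by
    rw [c4] at c2
    have h1 : g * (a⁻¹ * a⁻¹) = a⁻¹ * a⁻¹ * g := by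
      have h2 : g * (a⁻¹ * a⁻¹) * g = a⁻¹ * a⁻¹ * g * g := by
        calc g * (a⁻¹ * a⁻¹) * g = g * (a⁻¹ * a⁻¹ * g) := by group
          _ = _ := c2
      exact mul_right_cancel h2
    calc g * (a * a) = a * a * (a⁻¹ * a⁻¹ * g) * (a * a) := by group
      _ = a * a * (g * (a⁻¹ * a⁻¹)) * (a * a) := by rw [h1]
      _ = _ := by group
  -- `d = g w⁻¹`
  have hgG : g ∈ G := by
    rw [hg]; exact G.mul_mem (G.mul_mem (G.inv_mem (h.memL q)) hwG) (h.memL q)
  have hdG : g * w⁻¹ ∈ G := G.mul_mem hgG (G.inv_mem hwG)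
  have hJwi : J * w⁻¹ * J = c⁻¹ * a := by
    have h1 : J * w⁻¹ * J = (J * w * J)⁻¹ := (h.Jmulinv w).symm
    rw [h1, hJw]; group
  have hi : a⁻¹ * c⁻¹ = c⁻¹ * a⁻¹ := by rw [← mul_inv_rev, ← mul_inv_rev, hac]
  have hJd : J * (g * w⁻¹) * J = g * w⁻¹ := by
    calc J * (g * w⁻¹) * J = J * g * 1 * w⁻¹ * J := by group
      _ = (J * g * J) * (J * w⁻¹ * J) := by rw [← hJJ]; group
      _ = a⁻¹ * a⁻¹ * g * (c⁻¹ * a) := by rw [c4, hJwi]
      _ = a⁻¹ * a⁻¹ * (g * (a * a)) * a⁻¹ * a⁻¹ * c⁻¹ * a := by group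
      _ = a⁻¹ * a⁻¹ * (a * a * g) * a⁻¹ * a⁻¹ * c⁻¹ * a := by rw [c5]
      _ = g * a⁻¹ * (a⁻¹ * c⁻¹) * a := by group
      _ = g * a⁻¹ * (c⁻¹ * a⁻¹) * a := by rw [hi]
      _ = g * (a⁻¹ * c⁻¹) := by group
      _ = g * (c⁻¹ * a⁻¹) := by rw [hi]
      _ = g * w⁻¹ := by rw [hwd]; group
  have hdJ : (g * w⁻¹) * J = J * (g * w⁻¹) := by
    calc (g * w⁻¹) * J = (J * (g * w⁻¹) * J) * J := by rw [hJd]
      _ = J * (g * w⁻¹) * (J * J) := by group
      _ = _ := by rw [hJJ, mul_one]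
  have hde := h.centJ hdG hdJ
  have hda : (g * w⁻¹) * (a * a) = (a * a) * (g * w⁻¹) := by
    have h1 : w⁻¹ * (a * a) = (a * a) * w⁻¹ := by
      have h2 : w * (a * a) = (a * a) * w := by
        rw [hwd]
        calc a * c * (a * a) = a * (c * a) * a := by group
          _ = a * (a * c) * a := by rw [hac]
          _ = a * a * (c * a) := by group
          _ = a * a * (a * c) := by rw [hac]
      calc w⁻¹ * (a * a) = w⁻¹ * ((a * a) * w) * w⁻¹ := by group
        _ = w⁻¹ * (w * (a * a)) * w⁻¹ := by rw [h2]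
        _ = _ := by group
    calc (g * w⁻¹) * (a * a) = g * (w⁻¹ * (a * a)) := by group
      _ = (g * (a * a)) * w⁻¹ := by rw [h1]; group
      _ = _ := by rw [c5]; group
  have hds : (g * w⁻¹) (sp L x c) = sp L x c := by
    rw [← h.D_cent hdG, hDs]
    calc g * w⁻¹ * (a * a * J) = (g * w⁻¹ * (a * a)) * J := by group
      _ = a * a * ((g * w⁻¹) * J) := by rw [hda]; group
      _ = a * a * J * (g * w⁻¹) := by rw [hdJ]; group
  have hdw : (g * w⁻¹) * w = w * (g * w⁻¹) := by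
    have h1 := h.comR hdG hde hds
    have h2 : J * L (J (sp L x c)) * J = w := hR
    rw [h2] at h1
    exact h1
  refine ⟨⟨hdG, hde⟩, hds, hdw, n, hn, ?_⟩
  have h1 : Commute (g * w⁻¹) w := hdw
  have h2 := h1.mul_pow n
  rw [inv_mul_cancel_right, hgn, hw, mul_one] at h2
  exact h2.symm

end Pool.Agent.H37.SL
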